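import Mathlib
import Pool.Agent.V11256.NikA

/-!
# A Borel filter, not `F_σδ`, whose algebra has the Nikodym property

The filter is the dual of the ideal of all `A ⊆ ω × ω` such that the set of `n` for which the
section `A_n` is infinite has asymptotic density zero.
-/

namespace Pool.Agent.Results.MP_07734d_lc.NikodymBorel

open Set Filter Pool.Agent.V11256.NikA

/-! ### Definitions -/

/-- The total variation of `μ` on the algebra `𝒜` is at most `C`. -/
def VarLE (𝒜 : Set (Set ℕ)) (μ : Set ℕ → ℝ) (C : ℝ) : Prop :=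
  ∀ t : Finset (Set ℕ), (∀ A ∈ t, A ∈ 𝒜) → (t : Set (Set ℕ)).PairwiseDisjoint id →
    ∑ A ∈ t, |μ A| ≤ C

/-- `μ` is a measure on `𝒜`: finitely additive and of bounded total variation. -/
def IsMeasure (𝒜 : Set (Set ℕ)) (μ : Set ℕ → ℝ) : Prop :=
  (∀ A ∈ 𝒜, ∀ B ∈ 𝒜, Disjoint A B → μ (A ∪ B) = μ A + μ B) ∧ ∃ C, VarLE 𝒜 μ C

/-- The Nikodym property. -/
def Nikodym (𝒜 : Set (Set ℕ)) : Prop :=
  ∀ μ : ℕ → Set ℕ → ℝ, (∀ n, IsMeasure 𝒜 (μ n)) → (∀ A ∈ 𝒜, ∃ C, ∀ n, |μ n A| ≤ C) →
    ∃ C, ∀ n, VarLE 𝒜 (μ n) C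

/-- The algebra generated by a filter. -/
def algebraOf (F : Filter ℕ) : Set (Set ℕ) := {A | A ∈ F ∨ Aᶜ ∈ F}

/-- A filter as a subset of the Cantor space. -/
def asSubset (F : Filter ℕ) : Set (ℕ → Bool) := {x | {n | x n = true} ∈ F}

/-- Being an `F_σδ` set. -/
def IsFSigmaDelta {X : Type} [TopologicalSpace X] (S : Set X) : Prop :=
  ∃ C : ℕ → ℕ → Set X, (∀ i j, IsClosed (C i j)) ∧ S = ⋂ i, ⋃ j, C i j

/-! ### Density -/

open Classical in
/-- The number of elements of `S` below `n`. -/
noncomputable def cnt (S : Set ℕ) (n : ℕ) : ℕ := ((Finset.range n).filter (· ∈ S)).card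

/-- `S` has asymptotic density zero. -/
def Zero (S : Set ℕ) : Prop := ∀ k : ℕ, ∃ N, ∀ n, N ≤ n → k * cnt S n ≤ n

theorem cnt_mono {S T : Set ℕ} (h : S ⊆ T) (n : ℕ) : cnt S n ≤ cnt T n := by
  classical
  unfold cnt
  refine Finset.card_le_card fun x hx => ?_
  rw [Finset.mem_filter] at hx ⊢
  exact ⟨hx.1, h hx.2⟩

theorem cnt_union (S T : Set ℕ) (n : ℕ) : cnt (S ∪ T) n ≤ cnt S n + cnt T n := by
  unfold cnt
  have key : ∀ (S : Set ℕ) (x : ℕ), x ∈ @Finset.filter ℕ (fun x => x ∈ S)
      (fun a => Classical.propDecidable _) (Finset.range n) ↔ x < n ∧ x ∈ S := by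
    intro S x
    simp
  refine (Finset.card_le_card fun x hx => ?_).trans (Finset.card_union_le _ _)
  rw [key] at hx
  rw [Finset.mem_union, key, key]
  rcases hx.2 with h | h
  · exact Or.inl ⟨hx.1, h⟩
  · exact Or.inr ⟨hx.1, h⟩

theorem cnt_le (S : Set ℕ) (n : ℕ) : cnt S n ≤ n := by
  classical
  unfold cnt
  exact (Finset.card_filter_le _ _).trans (by simp)

theorem cnt_biUnion {ι : Type} (S : ι → Set ℕ) (t : Finset ι) (n : ℕ) :
    cnt (⋃ i ∈ t, S i) n ≤ ∑ i ∈ t, cnt (S i) n := by
  classical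
  induction t using Finset.induction_on with
  | empty => simp [cnt]
  | insert a t ha ih =>
    rw [Finset.set_biUnion_insert, Finset.sum_insert ha]
    exact (cnt_union _ _ _).trans (Nat.add_le_add_left ih _)

theorem Zero.mono {S T : Set ℕ} (hT : Zero T) (h : S ⊆ T) : Zero S := by
  intro k
  obtain ⟨N, hN⟩ := hT k
  exact ⟨N, fun n hn => (Nat.mul_le_mul_left k (cnt_mono h n)).trans (hN n hn)⟩

theorem Zero.union {S T : Set ℕ} (hS : Zero S) (hT : Zero T) : Zero (S ∪ T) := by
  intro k
  obtain ⟨N, hN⟩ := hS (2 * k)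
  obtain ⟨N', hN'⟩ := hT (2 * k)
  refine ⟨max N N', fun n hn => ?_⟩
  have h1 := hN n ((le_max_left _ _).trans hn)
  have h2 := hN' n ((le_max_right _ _).trans hn)
  have h3 := Nat.mul_le_mul_left k (cnt_union S T n)
  nlinarith

theorem zero_of_finite {S : Set ℕ} (hS : S.Finite) : Zero S := by
  classical
  intro k
  refine ⟨k * hS.toFinset.card, fun n hn => (Nat.mul_le_mul_left k ?_).trans hn⟩
  unfold cnt
  refine Finset.card_le_card fun x hx => ?_
  rw [Finset.mem_filter] at hx
  exact hS.mem_toFinset.mpr hx.2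

theorem zero_biUnion {S : ℕ → Set ℕ} (hS : ∀ i, Zero (S i)) (k : ℕ) : Zero (⋃ i ∈ Iio k, S i) := by
  induction k with
  | zero => exact zero_of_finite (by simp)
  | succ k ih =>
    refine (ih.union (hS k)).mono ?_
    intro x hx
    rw [mem_iUnion₂] at hx
    obtain ⟨i, hi, hx⟩ := hx
    rcases Nat.lt_succ_iff_lt_or_eq.mp hi with h | h
    · exact Or.inl (mem_iUnion₂.mpr ⟨i, h, hx⟩)
    · exact Or.inr (h ▸ hx)

/-- The union of sets of density zero with small counting functions. -/
theorem zero_iUnion {S : ℕ → Set ℕ} (hS : ∀ k, Zero (S k)) (h1 : ∀ k, ∀ x ∈ S k, 2 ^ k ≤ x)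
    (h2 : ∀ k n, 2 ^ k * cnt (S k) n ≤ 2 * n) : Zero (⋃ k, S k) := by
  intro K
  -- the tail
  obtain ⟨k0, hk0⟩ := pow_unbounded_of_one_lt (8 * K : ℝ) (one_lt_two)
  obtain ⟨N, hN⟩ := zero_biUnion hS k0 (2 * K)
  refine ⟨N, fun n hn => ?_⟩
  have htail : (cnt (⋃ k, S (k0 + k)) n : ℝ) ≤ 4 * n / 2 ^ k0 := by
    have e1 : cnt (⋃ k, S (k0 + k)) n ≤ cnt (⋃ k ∈ Finset.range n, S (k0 + k)) n := by
      classical
      unfold cnt
      refine Finset.card_le_card fun x hx => ?_
      rw [Finset.mem_filter] at hx ⊢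
      refine ⟨hx.1, ?_⟩
      obtain ⟨k, hk⟩ := mem_iUnion.mp hx.2
      have h3 := h1 _ _ hk
      have h4 : x < n := Finset.mem_range.mp hx.1
      have h5 : k0 + k < 2 ^ (k0 + k) := Nat.lt_two_pow_self
      exact mem_iUnion₂.mpr ⟨k, Finset.mem_range.mpr (by omega), hk⟩
    have e2 : (cnt (⋃ k ∈ Finset.range n, S (k0 + k)) n : ℝ) ≤
        ∑ k ∈ Finset.range n, (cnt (S (k0 + k)) n : ℝ) := by
      exact_mod_cast cnt_biUnion (fun k => S (k0 + k)) (Finset.range n) n
    have e3 : ∑ k ∈ Finset.range n, (cnt (S (k0 + k)) n : ℝ) ≤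
        ∑ k ∈ Finset.range n, (2 * n / 2 ^ k0) * (1 / 2 : ℝ) ^ k := by
      refine Finset.sum_le_sum fun k _ => ?_
      have h3 : ((2 : ℝ) ^ (k0 + k)) * cnt (S (k0 + k)) n ≤ 2 * n := by
        exact_mod_cast h2 (k0 + k) n
      have h4 : (0 : ℝ) < 2 ^ (k0 + k) := by positivity
      have h5 : (2 * n / 2 ^ k0) * (1 / 2 : ℝ) ^ k = 2 * n / 2 ^ (k0 + k) := by
        rw [pow_add, one_div, inv_pow]
        field_simp
      rw [h5, le_div_iff₀ h4]
      linarith
    rw [← Finset.mul_sum] at e3
    have e4 := sum_geometric_two_le n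
    have e5 : (0 : ℝ) ≤ 2 * n / 2 ^ k0 := by positivity
    calc (cnt (⋃ k, S (k0 + k)) n : ℝ) ≤ cnt (⋃ k ∈ Finset.range n, S (k0 + k)) n := by
          exact_mod_cast e1
      _ ≤ _ := e2
      _ ≤ _ := e3
      _ ≤ (2 * n / 2 ^ k0) * 2 := mul_le_mul_of_nonneg_left e4 e5
      _ = 4 * n / 2 ^ k0 := by ring
  have hhead := hN n hn
  have hall : cnt (⋃ k, S k) n ≤ cnt (⋃ i ∈ Iio k0, S i) n + cnt (⋃ k, S (k0 + k)) n := by
    refine (cnt_mono ?_ n).trans (cnt_union _ _ n)
    intro x hx
    obtain ⟨k, hk⟩ := mem_iUnion.mp hx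
    rcases lt_or_ge k k0 with h | h
    · exact Or.inl (mem_iUnion₂.mpr ⟨k, h, hk⟩)
    · refine Or.inr (mem_iUnion.mpr ⟨k - k0, ?_⟩)
      rwa [Nat.add_sub_cancel' h]
  have h3 : (K : ℝ) * cnt (⋃ k, S (k0 + k)) n ≤ n / 2 := by
    have h4 : (0 : ℝ) < 2 ^ k0 := by positivity
    have h5 : (K : ℝ) * (4 * n / 2 ^ k0) ≤ n / 2 := by
      rw [mul_div_assoc', div_le_div_iff₀ h4 two_pos]
      have : (0 : ℝ) ≤ n := Nat.cast_nonneg n
      nlinarith
    exact (mul_le_mul_of_nonneg_left htail (Nat.cast_nonneg K)).trans h5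
  have h6 : (K : ℝ) * cnt (⋃ i ∈ Iio k0, S i) n ≤ n / 2 := by
    have : ((2 * K : ℕ) : ℝ) * cnt (⋃ i ∈ Iio k0, S i) n ≤ n := by exact_mod_cast hhead
    push_cast at this
    linarith
  have h7 : (K : ℝ) * cnt (⋃ k, S k) n ≤ n := by
    have : (cnt (⋃ k, S k) n : ℝ) ≤ cnt (⋃ i ∈ Iio k0, S i) n + cnt (⋃ k, S (k0 + k)) n := by
      exact_mod_cast hall
    have h8 := mul_le_mul_of_nonneg_left this (Nat.cast_nonneg (α := ℝ) K)
    rw [mul_add] at h8
    linarith
  exact_mod_cast h7

/-! ### The ideal -/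

/-- The `n`-th section of a subset of `ω`, identified with `ω × ω`. -/
def sec (A : Set ℕ) (n : ℕ) : Set ℕ := {t | Nat.pair n t ∈ A}

/-- The support. -/
def supp (A : Set ℕ) : Set ℕ := {n | (sec A n).Nonempty}

/-- The ideal. -/
def Idl (A : Set ℕ) : Prop := Zero {n | (sec A n).Infinite}

theorem sec_mono {A B : Set ℕ} (h : A ⊆ B) (n : ℕ) : sec A n ⊆ sec B n := fun _ ht => h ht

theorem Idl.mono {A B : Set ℕ} (hB : Idl B) (h : A ⊆ B) : Idl A :=
  Zero.mono hB fun n (hn : (sec A n).Infinite) => hn.mono (sec_mono h n)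

theorem Idl.union {A B : Set ℕ} (hA : Idl A) (hB : Idl B) : Idl (A ∪ B) := by
  refine (Zero.union hA hB).mono fun n hn => ?_
  have h1 : (sec A n ∪ sec B n).Infinite := hn
  rw [infinite_union] at h1
  exact h1

theorem idl_of_supp {A : Set ℕ} (h : Zero (supp A)) : Idl A :=
  h.mono fun _ hn => Set.Infinite.nonempty hn

theorem idl_of_fin {A : Set ℕ} (h : ∀ n, (sec A n).Finite) : Idl A := by
  refine (zero_of_finite finite_empty).mono fun n hn => ?_
  exact absurd (h n) hn

theorem not_idl_univ : ¬ Idl univ := by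
  intro h
  have h1 : {n | (sec univ n).Infinite} = univ := by
    ext n
    simp only [mem_ofPred_eq, mem_univ, iff_true]
    have : sec univ n = univ := rfl
    rw [this]
    exact infinite_univ
  unfold Idl at h
  rw [h1] at h
  obtain ⟨N, hN⟩ := h 2
  have h2 := hN (N + 1) (by omega)
  have h3 : cnt univ (N + 1) = N + 1 := by
    classical
    simp [cnt]
  rw [h3] at h2
  omega

/-- The filter. -/
def FF : Filter ℕ where
  sets := {A | Idl Aᶜ}
  univ_sets := by
    show Idl univᶜ
    rw [compl_univ]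
    exact idl_of_fin fun n => finite_empty
  sets_of_superset := fun {_ _} hA h => Idl.mono hA (compl_subset_compl.mpr h)
  inter_sets := fun {A B} hA hB => by
    show Idl (A ∩ B)ᶜ
    rw [compl_inter]
    exact Idl.union hA hB

theorem mem_FF {A : Set ℕ} : A ∈ FF ↔ Idl Aᶜ := Iff.rfl

theorem idl_of_finite {A : Set ℕ} (h : A.Finite) : Idl A :=
  idl_of_fin fun _ => h.preimage fun _ _ _ _ hab => (Nat.pair_eq_pair.mp hab).2

theorem FF_le : FF ≤ cofinite := fun _ hA => mem_FF.mpr (idl_of_finite hA)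

theorem FF_not_finite {A : Set ℕ} (h : A.Finite) : A ∉ FF := by
  intro hA
  have := (idl_of_finite h).union (mem_FF.mp hA)
  rw [union_compl_self] at this
  exact not_idl_univ this

/-! ### The Nikodym property -/

theorem mem_alg {A : Set ℕ} : A ∈ algebraOf FF ↔ Idl Aᶜ ∨ Idl A := by
  show A ∈ FF ∨ Aᶜ ∈ FF ↔ _
  rw [mem_FF, mem_FF, compl_compl]

theorem alg_union {A B : Set ℕ} (hA : A ∈ algebraOf FF) (hB : B ∈ algebraOf FF) :
    A ∪ B ∈ algebraOf FF := by
  rw [mem_alg] at *
  rcases hA with hA | hA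
  · exact Or.inl (hA.mono (compl_subset_compl.mpr subset_union_left))
  · rcases hB with hB | hB
    · exact Or.inl (hB.mono (compl_subset_compl.mpr subset_union_right))
    · exact Or.inr (hA.union hB)

/-- The region of the columns with index `< k`. -/
def reg (k : ℕ) : Set ℕ := {m | (Nat.unpair m).1 < k}

theorem supp_reg (k : ℕ) : supp (reg k) ⊆ Iio k := by
  rintro n ⟨t, ht⟩
  have : (Nat.unpair (Nat.pair n t)).1 < k := ht
  rwa [Nat.unpair_pair] at this

theorem idl_reg (k : ℕ) : Idl (reg k) :=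
  idl_of_supp (zero_of_finite ((finite_Iio k).subset (supp_reg k)))

theorem nikodym_FF : Nikodym (algebraOf FF) := by
  intro μ hμ hpt
  have hadd : ∀ n A B, A ∈ algebraOf FF → B ∈ algebraOf FF → Disjoint A B →
      μ n (A ∪ B) = μ n A + μ n B := fun n A B hA hB hd => (hμ n).1 A hA B hB hd
  have hI : ∀ {A}, Idl A → A ∈ algebraOf FF := fun h => mem_alg.mpr (Or.inr h)
  have hbd : ∀ n, ∃ C, ∀ A ∈ algebraOf FF, |μ n A| ≤ C := by
    intro n
    obtain ⟨C, hC⟩ := (hμ n).2
    refine ⟨C, fun A hA => ?_⟩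
    have := hC {A} (by simpa using hA) (by simp)
    simpa using this
  -- boundedness below a member of the ideal
  have hB : ∀ E, Idl E → ∃ C, ∀ n, ∀ A ⊆ E, |μ n A| ≤ C := by
    intro E hE
    obtain ⟨C, hC⟩ := nikodym_powerset (fun n A => μ n (A ∩ E))
      (fun n A B hd => by
        show μ n ((A ∪ B) ∩ E) = μ n (A ∩ E) + μ n (B ∩ E)
        rw [union_inter_distrib_right]
        exact hadd n _ _ (hI (hE.mono inter_subset_right)) (hI (hE.mono inter_subset_right))
          (hd.mono inter_subset_left inter_subset_left))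
      (fun n => by
        obtain ⟨C, hC⟩ := hbd n
        exact ⟨C, fun A => hC _ (hI (hE.mono inter_subset_right))⟩)
      (fun A => by
        obtain ⟨C, hC⟩ := hpt (A ∩ E) (hI (hE.mono inter_subset_right))
        exact ⟨C, fun n => hC n⟩)
    refine ⟨C, fun n A hA => ?_⟩
    have := hC n A
    simpa only [inter_eq_left.mpr hA] using this
  -- the sets with support of density zero
  have hR0 : ∃ C, ∀ n A, Zero (supp A) → |μ n A| ≤ C := by
    by_contra hcon
    push Not at hcon
    have hstep : ∀ k : ℕ, ∃ n A, Zero (supp A) ∧ (k : ℝ) < |μ n A| ∧ (∀ x ∈ supp A, 2 ^ k ≤ x) ∧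
        ∀ n, 2 ^ k * cnt (supp A) n ≤ 2 * n := by
      intro k
      by_contra hno
      push Not at hno
      let P : ℕ → Set ℕ := fun r => {m | (Nat.unpair m).1 % 2 ^ k = r ∧ 2 ^ k ≤ (Nat.unpair m).1}
      obtain ⟨C0, hC0⟩ := hB (reg (2 ^ k)) (idl_reg _)
      obtain ⟨n, A, hA, hbig⟩ := hcon (C0 + 2 ^ k * k)
      have hIA : Idl A := idl_of_supp hA
      have hpart : A = (A ∩ reg (2 ^ k)) ∪ ⋃ r ∈ Finset.range (2 ^ k), (A ∩ P r) := by
        ext m
        simp only [mem_union, mem_inter_iff, mem_iUnion, Finset.mem_range, exists_prop]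
        constructor
        · intro hm
          rcases lt_or_ge (Nat.unpair m).1 (2 ^ k) with h | h
          · exact Or.inl ⟨hm, h⟩
          · exact Or.inr ⟨_, Nat.mod_lt _ (by positivity), hm, rfl, h⟩
        · rintro (⟨hm, -⟩ | ⟨r, -, hm, -⟩) <;> exact hm
      have hd : Disjoint (A ∩ reg (2 ^ k)) (⋃ r ∈ Finset.range (2 ^ k), (A ∩ P r)) := by
        rw [disjoint_iUnion₂_right]
        intro r _
        rw [Set.disjoint_left]
        rintro m ⟨-, hm⟩ ⟨-, -, hm2⟩
        exact absurd hm2 (not_le.mpr hm)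
      have hAdd : AddOn (· ∈ algebraOf FF) (μ n) := fun A B hA hB hd => hadd n A B hA hB hd
      obtain ⟨hU1, hU2⟩ := hAdd.biUnion (hI (idl_of_finite finite_empty))
        (fun A B hA hB => alg_union hA hB) (fun r => A ∩ P r) (Finset.range (2 ^ k))
        (fun r _ => hI (hIA.mono inter_subset_left)) (by
          intro r _ r' _ hrr
          show Disjoint (A ∩ P r) (A ∩ P r')
          rw [Set.disjoint_left]
          rintro m ⟨-, hm, -⟩ ⟨-, hm2, -⟩
          exact hrr (hm.symm.trans hm2))
      have e1 := hadd n _ _ (hI (hIA.mono inter_subset_left)) hU1 hd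
      rw [← hpart, hU2] at e1
      have e2 := hC0 n (A ∩ reg (2 ^ k)) inter_subset_right
      have e3 : ∀ r ∈ Finset.range (2 ^ k), |μ n (A ∩ P r)| ≤ k := by
        intro r hr
        by_contra hlt
        rw [not_le] at hlt
        have hz : Zero (supp (A ∩ P r)) :=
          hA.mono fun x (hx : (sec (A ∩ P r) x).Nonempty) => hx.mono (sec_mono inter_subset_left x)
        have hsup : ∀ x ∈ supp (A ∩ P r), x % 2 ^ k = r ∧ 2 ^ k ≤ x := by
          rintro x ⟨t, -, ht⟩
          have h1 : (Nat.unpair (Nat.pair x t)).1 % 2 ^ k = r ∧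
            2 ^ k ≤ (Nat.unpair (Nat.pair x t)).1 := ht
          rwa [Nat.unpair_pair] at h1
        obtain ⟨N, hN⟩ := hno n (A ∩ P r) hz hlt (fun x hx => (hsup x hx).2)
        apply absurd hN
        rw [not_lt]
        have hpos : 0 < 2 ^ k := by positivity
        rcases le_or_gt N (2 ^ k) with h | h
        · have : cnt (supp (A ∩ P r)) N = 0 := by
            classical
            unfold cnt
            rw [Finset.card_eq_zero, Finset.filter_eq_empty_iff]
            intro x hx hxs
            have := (hsup x hxs).2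
            have := Finset.mem_range.mp hx
            omega
          rw [this]
          omega
        · have h1 : cnt (supp (A ∩ P r)) N ≤ N / 2 ^ k + 1 := by
            classical
            unfold cnt
            have h2 : ((Finset.range N).filter (· ∈ supp (A ∩ P r))).card ≤
                (Finset.range (N / 2 ^ k + 1)).card := by
              refine Finset.card_le_card_of_injOn (fun x => x / 2 ^ k) ?_ ?_
              · intro x hx
                have hx' := Finset.mem_range.mp (Finset.mem_filter.mp hx).1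
                simp only [Finset.coe_range, mem_Iio]
                exact Nat.lt_succ_of_le (Nat.div_le_div_right hx'.le)
              · intro x hx y hy hxy
                have hx' := (hsup x (Finset.mem_filter.mp hx).2).1
                have hy' := (hsup y (Finset.mem_filter.mp hy).2).1
                have hxy' : x / 2 ^ k = y / 2 ^ k := hxy
                rw [← Nat.div_add_mod x (2 ^ k), ← Nat.div_add_mod y (2 ^ k), hx', hy', hxy']
            simpa using h2
          have h3 : 2 ^ k * (N / 2 ^ k) ≤ N := Nat.mul_div_le N (2 ^ k)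
          calc 2 ^ k * cnt (supp (A ∩ P r)) N ≤ 2 ^ k * (N / 2 ^ k + 1) :=
                Nat.mul_le_mul_left _ h1
            _ = 2 ^ k * (N / 2 ^ k) + 2 ^ k := by ring
            _ ≤ 2 * N := by omega
      have e4 : |∑ r ∈ Finset.range (2 ^ k), μ n (A ∩ P r)| ≤ 2 ^ k * k := by
        refine (Finset.abs_sum_le_sum_abs _ _).trans ((Finset.sum_le_sum e3).trans ?_)
        simp
      have e5 := abs_add_le (μ n (A ∩ reg (2 ^ k))) (∑ r ∈ Finset.range (2 ^ k), μ n (A ∩ P r))
      rw [← e1] at e5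
      linarith
    choose nn A hz hbig hge hcnt using hstep
    have hE : Zero (supp (⋃ k, A k)) := by
      refine (zero_iUnion hz hge hcnt).mono ?_
      rintro x ⟨t, ht⟩
      obtain ⟨k, hk⟩ := mem_iUnion.mp (show Nat.pair x t ∈ ⋃ k, A k from ht)
      exact mem_iUnion.mpr ⟨k, t, hk⟩
    obtain ⟨C, hC⟩ := hB _ (idl_of_supp hE)
    obtain ⟨k, hk⟩ := exists_nat_gt C
    exact absurd (hC (nn k) (A k) (subset_iUnion A k)) (not_le.mpr (hk.trans (hbig k)))
  -- the sets with finite sections
  have hR1 : ∃ C, ∀ n A, (∀ i, (sec A i).Finite) → |μ n A| ≤ C := by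
    by_contra hcon
    push Not at hcon
    have hstep : ∀ k : ℕ, ∃ n A, (∀ i, (sec A i).Finite) ∧ (k : ℝ) < |μ n A| ∧
        ∀ x ∈ supp A, k ≤ x := by
      intro k
      obtain ⟨C0, hC0⟩ := hB (reg k) (idl_reg k)
      obtain ⟨n, A, hA, hbig⟩ := hcon (k + C0)
      refine ⟨n, A \ reg k, fun i => (hA i).subset (sec_mono sdiff_subset i), ?_, ?_⟩
      · have hIA : Idl A := idl_of_fin hA
        have e1 := hadd n (A ∩ reg k) (A \ reg k) (hI (hIA.mono inter_subset_left))
          (hI (hIA.mono sdiff_subset)) disjoint_inf_sdiff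
        rw [inter_union_sdiff] at e1
        have e2 := hC0 n (A ∩ reg k) inter_subset_right
        rw [e1] at hbig
        have := abs_add_le (μ n (A ∩ reg k)) (μ n (A \ reg k))
        linarith
      · rintro x ⟨t, -, ht⟩
        have : ¬ (Nat.unpair (Nat.pair x t)).1 < k := ht
        rw [Nat.unpair_pair] at this
        simpa using this
    choose nn A hz hbig hge using hstep
    have hE : ∀ i, (sec (⋃ k, A k) i).Finite := by
      intro i
      have : sec (⋃ k, A k) i ⊆ ⋃ k ∈ Iic i, sec (A k) i := by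
        intro t ht
        obtain ⟨k, hk⟩ := mem_iUnion.mp (show Nat.pair i t ∈ ⋃ k, A k from ht)
        exact mem_iUnion₂.mpr ⟨k, hge k i ⟨t, hk⟩, hk⟩
      exact ((finite_Iic i).biUnion fun k _ => hz k i).subset this
    obtain ⟨C, hC⟩ := hB _ (idl_of_fin hE)
    obtain ⟨k, hk⟩ := exists_nat_gt C
    exact absurd (hC (nn k) (A k) (subset_iUnion A k)) (not_le.mpr (hk.trans (hbig k)))
  obtain ⟨C0, hC0⟩ := hR0
  obtain ⟨C1, hC1⟩ := hR1
  obtain ⟨C2, hC2⟩ := hpt univ (mem_alg.mpr (Or.inl (by
    rw [compl_univ]; exact idl_of_finite finite_empty)))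
  -- the ideal
  have hId : ∀ n A, Idl A → |μ n A| ≤ C0 + C1 := by
    intro n A hA
    let S : Set ℕ := {m | (sec A (Nat.unpair m).1).Infinite}
    have e1 := hadd n (A ∩ S) (A \ S) (hI (hA.mono inter_subset_left))
      (hI (hA.mono sdiff_subset)) disjoint_inf_sdiff
    rw [inter_union_sdiff] at e1
    have e2 : |μ n (A ∩ S)| ≤ C0 := by
      refine hC0 n _ (Zero.mono hA ?_)
      rintro x ⟨t, -, ht⟩
      have : (sec A (Nat.unpair (Nat.pair x t)).1).Infinite := ht
      rwa [Nat.unpair_pair] at this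
    have e3 : |μ n (A \ S)| ≤ C1 := by
      refine hC1 n _ fun i => ?_
      by_cases h : (sec A i).Infinite
      · have : sec (A \ S) i = ∅ := by
          ext t
          simp only [mem_empty_iff_false, iff_false]
          rintro ⟨-, ht⟩
          apply ht
          show (sec A (Nat.unpair (Nat.pair i t)).1).Infinite
          rwa [Nat.unpair_pair]
        rw [this]
        exact finite_empty
      · exact (not_infinite.mp h).subset (sec_mono sdiff_subset i)
    rw [e1]
    have := abs_add_le (μ n (A ∩ S)) (μ n (A \ S))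
    linarith
  -- the algebra
  have hAlg : ∀ n, ∀ A ∈ algebraOf FF, |μ n A| ≤ C0 + C1 + C2 := by
    intro n A hA
    have h0 : 0 ≤ C2 := (abs_nonneg _).trans (hC2 n)
    rcases mem_alg.mp hA with h | h
    · have e1 := hadd n A Aᶜ hA (hI h) disjoint_compl_right
      rw [union_compl_self] at e1
      have e2 := hId n _ h
      have e3 := hC2 n
      have : μ n A = μ n univ - μ n Aᶜ := by linarith
      rw [this]
      have := abs_sub (μ n univ) (μ n Aᶜ)
      linarith
    · have := hId n A h
      linarith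
  refine ⟨2 * (C0 + C1 + C2), fun n t ht hd => ?_⟩
  have hAdd : AddOn (· ∈ algebraOf FF) (μ n) := fun A B hA hB hd => hadd n A B hA hB hd
  exact hAdd.sum_abs_le (hI (idl_of_finite finite_empty)) (fun A B hA hB => alg_union hA hB)
    (hAlg n) id t ht hd

/-! ### The filter is Borel -/

theorem measurableSet_FF : MeasurableSet (asSubset FF) := by
  classical
  have h1 : ∀ n, MeasurableSet {x : ℕ → Bool | (sec {m | x m = true}ᶜ n).Infinite} := by
    intro n
    have : {x : ℕ → Bool | (sec {m | x m = true}ᶜ n).Infinite} =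
        ⋂ N : ℕ, ⋃ t : ℕ, ⋃ _ : N < t, {x : ℕ → Bool | x (Nat.pair n t) = false} := by
      ext x
      simp only [mem_ofPred_eq, mem_iInter, mem_iUnion, exists_prop]
      rw [Set.infinite_iff_exists_gt]
      refine forall_congr' fun N => ?_
      constructor
      · rintro ⟨t, ht, hN⟩
        have : ¬ x (Nat.pair n t) = true := ht
        exact ⟨t, hN, by simpa using this⟩
      · rintro ⟨t, hN, ht⟩
        refine ⟨t, ?_, hN⟩
        show ¬ x (Nat.pair n t) = true
        simp [ht]
    rw [this]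
    refine MeasurableSet.iInter fun N => MeasurableSet.iUnion fun t => MeasurableSet.iUnion fun _ => ?_
    have h0 : Measurable fun x : ℕ → Bool => x (Nat.pair n t) := measurable_pi_apply _
    exact h0 (measurableSet_singleton false)
  have h2 : ∀ n, Measurable fun x : ℕ → Bool => cnt {i | (sec {m | x m = true}ᶜ i).Infinite} n := by
    intro n
    have : (fun x : ℕ → Bool => cnt {i | (sec {m | x m = true}ᶜ i).Infinite} n) =
        fun x => ∑ i ∈ Finset.range n,
          (if (sec {m | x m = true}ᶜ i).Infinite then 1 else 0 : ℕ) := by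
      funext x
      unfold cnt
      rw [Finset.card_filter]
      refine Finset.sum_congr rfl fun i _ => ?_
      congr 1
    rw [this]
    exact Finset.measurable_sum _ fun i _ => Measurable.ite (h1 i) measurable_const measurable_const
  have h3 : asSubset FF = ⋂ k : ℕ, ⋃ N : ℕ, ⋂ n : ℕ, ⋂ _ : N ≤ n,
      {x : ℕ → Bool | k * cnt {i | (sec {m | x m = true}ᶜ i).Infinite} n ≤ n} := by
    ext x
    simp only [mem_iInter, mem_iUnion]
    exact Iff.rfl
  rw [h3]
  refine MeasurableSet.iInter fun k => MeasurableSet.iUnion fun N => MeasurableSet.iInter fun n =>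
    MeasurableSet.iInter fun _ => ?_
  exact measurableSet_le ((h2 n).const_mul k) measurable_const

/-! ### The filter is not `F_σδ` -/

theorem exists_finset {ι : Type*} {α : Type*} [TopologicalSpace α] {V : Set (ι → α)}
    (hV : IsOpen V) {a : ι → α} (ha : a ∈ V) :
    ∃ T : Finset ι, ∀ b : ι → α, (∀ i ∈ T, b i = a i) → b ∈ V := by
  rw [isOpen_pi_iff] at hV
  obtain ⟨T, u, hu, hT⟩ := hV a ha
  exact ⟨T, fun b hb => hT fun i hi => by
    rw [hb i hi]
    exact (hu i hi).2⟩

/-- The families with an infinite section. -/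
def SS : Set (ℕ × ℕ → Bool) := {A | ∃ i, {t | A (i, t) = true}.Infinite}

theorem not_fsd : ¬ IsFSigmaDelta SS := by
  classical
  rintro ⟨C, hC, hS⟩
  let _ : TopologicalSpace (Finset ℕ) := ⊥
  have _ : DiscreteTopology (Finset ℕ) := ⟨rfl⟩
  let e : (ℕ → Finset ℕ) → (ℕ × ℕ → Bool) := fun y p => decide (p.2 ∈ y p.1)
  have hfin : ∀ y, e y ∉ SS := by
    rintro y ⟨i, hi⟩
    apply hi
    refine (y i).finite_toSet.subset fun t ht => ?_
    simpa [e] using ht
  -- the `G_δ` sets
  have hcov : (⋃ i, closure {y | ∀ j, e y ∉ C i j}) = univ := by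
    refine eq_univ_of_forall fun y => ?_
    have h1 := hfin y
    rw [hS] at h1
    simp only [mem_iInter, mem_iUnion, not_forall, not_exists] at h1
    obtain ⟨i, hi⟩ := h1
    exact mem_iUnion.mpr ⟨i, subset_closure hi⟩
  obtain ⟨m, y0, hy0⟩ := nonempty_interior_of_iUnion_of_closed (fun _ => isClosed_closure) hcov
  obtain ⟨T0, hT0⟩ := exists_finset isOpen_interior hy0
  let l : ℕ := T0.sup id + 1
  have hl : ∀ i ∈ T0, i < l := fun i hi => Nat.lt_succ_of_le (Finset.le_sup (f := id) hi)
  -- the parametrization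
  let κ : (ℕ × ℕ → Bool) → (ℕ × ℕ → Bool) := fun A p => if p.1 < l then e y0 p else A p
  have hκ : Continuous κ := by
    refine continuous_pi fun p => ?_
    by_cases h : p.1 < l
    · simp only [κ, h, if_true]
      exact continuous_const
    · simp only [κ, h, if_false]
      exact continuous_apply p
  -- density of the open sets
  have hdense : ∀ j, Dense (κ ⁻¹' (C m j)ᶜ) := by
    intro j
    rw [dense_iff_inter_open]
    rintro V hV ⟨A, hA⟩
    obtain ⟨T, hT⟩ := exists_finset hV hA
    let y1 : ℕ → Finset ℕ := fun i => if i < l then y0 i else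
      (T.filter fun p => p.1 = i ∧ A p = true).image Prod.snd
    have hy1 : y1 ∈ closure {y | ∀ j, e y ∉ C m j} :=
      interior_subset (hT0 y1 fun i hi => by simp [y1, hl i hi])
    let L : ℕ := max l (T.sup Prod.fst + 1)
    let W : Set (ℕ → Finset ℕ) := {y | ∀ i < L, y i = y1 i}
    have hW : IsOpen W := by
      have : W = ⋂ i ∈ Iio L, (fun y : ℕ → Finset ℕ => y i) ⁻¹' {y1 i} := by
        ext y
        simp [W]
      rw [this]
      exact (finite_Iio L).isOpen_biInter fun i _ => (isOpen_discrete _).preimage (continuous_apply i)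
    obtain ⟨y2, hy2W, hy2⟩ := mem_closure_iff.mp hy1 W hW (fun _ _ => rfl)
    refine ⟨fun p => if p.1 < l then A p else e y2 p, hT _ fun p hp => ?_, ?_⟩
    · by_cases h : p.1 < l
      · simp [h]
      · simp only [h, if_false]
        have hpL : p.1 < L := (Nat.lt_succ_of_le (Finset.le_sup (f := Prod.fst) hp)).trans_le
          (le_max_right _ _)
        have e1 : e y2 p = decide (p.2 ∈ y1 p.1) := by
          show decide (p.2 ∈ y2 p.1) = _
          rw [hy2W p.1 hpL]
        rw [e1]
        simp only [y1, h, if_false]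
        by_cases hAp : A p = true
        · rw [hAp, decide_eq_true_iff, Finset.mem_image]
          exact ⟨p, Finset.mem_filter.mpr ⟨hp, rfl, hAp⟩, rfl⟩
        · have hAp' : A p = false := by simpa using hAp
          rw [hAp', decide_eq_false_iff_not, Finset.mem_image]
          rintro ⟨q, hq, hq2⟩
          obtain ⟨-, hq3, hq4⟩ := Finset.mem_filter.mp hq
          have : q = p := Prod.ext hq3 hq2
          rw [this, hAp'] at hq4
          cases hq4
    · have e1 : κ (fun p => if p.1 < l then A p else e y2 p) = e y2 := by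
        funext p
        by_cases h : p.1 < l
        · simp only [κ, h, if_true]
          show decide (p.2 ∈ y0 p.1) = decide (p.2 ∈ y2 p.1)
          rw [hy2W p.1 (h.trans_le (le_max_left _ _))]
          simp [y1, h]
        · simp only [κ, h, if_false]
      show κ (fun p => if p.1 < l then A p else e y2 p) ∉ C m j
      rw [e1]
      exact hy2 j
  have hdense2 : ∀ n, IsOpen {A : ℕ × ℕ → Bool | ∃ t, n < t ∧ A (l, t) = true} ∧
      Dense {A : ℕ × ℕ → Bool | ∃ t, n < t ∧ A (l, t) = true} := by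
    intro n
    constructor
    · have : {A : ℕ × ℕ → Bool | ∃ t, n < t ∧ A (l, t) = true} =
          ⋃ t ∈ Ioi n, (fun A : ℕ × ℕ → Bool => A (l, t)) ⁻¹' {true} := by
        ext A
        simp
      rw [this]
      exact isOpen_biUnion fun t _ => (isOpen_discrete _).preimage (continuous_apply _)
    · rw [dense_iff_inter_open]
      rintro V hV ⟨A, hA⟩
      obtain ⟨T, hT⟩ := exists_finset hV hA
      let t : ℕ := max (n + 1) (T.sup Prod.snd + 1)
      have ht : (l, t) ∉ T := by
        intro h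
        have h1 : t ≤ T.sup Prod.snd := Finset.le_sup (f := Prod.snd) h
        have h2 : T.sup Prod.snd + 1 ≤ t := le_max_right _ _
        omega
      refine ⟨Function.update A (l, t) true, hT _ fun p hp => ?_, t, ?_, ?_⟩
      · rw [Function.update_of_ne]
        rintro rfl
        exact ht hp
      · exact lt_of_lt_of_le (Nat.lt_succ_self n) (le_max_left _ _)
      · simp
  have h1 : ∀ᶠ A in residual (ℕ × ℕ → Bool), ∀ j, A ∈ κ ⁻¹' (C m j)ᶜ := by
    rw [eventually_countable_forall]
    exact fun j => residual_of_dense_open ((hC m j).isOpen_compl.preimage hκ) (hdense j)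
  have h2 : ∀ᶠ A in residual (ℕ × ℕ → Bool), ∀ n, ∃ t, n < t ∧ A (l, t) = true := by
    rw [eventually_countable_forall]
    exact fun n => residual_of_dense_open (hdense2 n).1 (hdense2 n).2
  obtain ⟨A, hA1, hA2⟩ := (dense_of_mem_residual (h1.and h2)).nonempty
  have h3 : κ A ∈ SS := by
    refine ⟨l, ?_⟩
    rw [Set.infinite_iff_exists_gt]
    intro n
    obtain ⟨t, ht, hAt⟩ := hA2 n
    refine ⟨t, ?_, ht⟩
    show κ A (l, t) = true
    simpa [κ] using hAt
  rw [hS] at h3
  obtain ⟨j, hj⟩ := mem_iUnion.mp (mem_iInter.mp h3 m)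
  exact hA1 j hj

/-- The column attached to `q`. -/
def col (A : ℕ × ℕ → Bool) (q : ℕ × Finset (ℕ × ℕ)) : Set ℕ :=
  {t | (∀ p ∈ q.2, p.1 < q.1) ∧ ∀ i < q.1, ∀ r < t, (A (i, r) = true ↔ (i, r) ∈ q.2)}

theorem col_infinite {A : ℕ × ℕ → Bool} {q : ℕ × Finset (ℕ × ℕ)} :
    (col A q).Infinite ↔ (∀ p ∈ q.2, p.1 < q.1) ∧ ∀ i < q.1, ∀ r, (A (i, r) = true ↔ (i, r) ∈ q.2) := by
  constructor
  · intro h
    refine ⟨h.nonempty.choose_spec.1, fun i hi r => ?_⟩
    obtain ⟨t, ht, hrt⟩ := h.exists_gt r
    exact ht.2 i hi r hrt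
  · rintro ⟨h1, h2⟩
    have : col A q = univ := eq_univ_of_forall fun t => ⟨h1, fun i hi r _ => h2 i hi r⟩
    rw [this]
    exact infinite_univ

theorem mem_SS_iff {A : ℕ × ℕ → Bool} : A ∈ SS ↔ {q | (col A q).Infinite}.Finite := by
  classical
  constructor
  · rintro ⟨i, hi⟩
    -- the first coordinate is at most `i`
    have hle : ∀ q : ℕ × Finset (ℕ × ℕ), (col A q).Infinite → q.1 ≤ i := by
      intro q hq
      by_contra hlt
      rw [not_le] at hlt
      obtain ⟨h1, h2⟩ := col_infinite.mp hq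
      apply hi
      refine ((q.2.image Prod.snd).finite_toSet).subset fun t ht => ?_
      exact Finset.mem_coe.mpr (Finset.mem_image.mpr ⟨(i, t), (h2 i hlt t).mp ht, rfl⟩)
    refine Set.Finite.of_finite_image (f := Prod.fst) ((finite_Iic i).subset ?_) ?_
    · rintro _ ⟨q, hq, rfl⟩
      exact hle q hq
    · rintro ⟨k, s⟩ hq ⟨k', s'⟩ hq' (hkk : k = k')
      subst hkk
      obtain ⟨h1, h2⟩ := col_infinite.mp hq
      obtain ⟨h3, h4⟩ := col_infinite.mp hq'
      simp only at h1 h2 h3 h4
      refine Prod.ext rfl (Finset.ext fun p => ?_)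
      constructor
      · intro hp
        exact (h4 p.1 (h1 p hp) p.2).mp ((h2 p.1 (h1 p hp) p.2).mpr hp)
      · intro hp
        exact (h2 p.1 (h3 p hp) p.2).mp ((h4 p.1 (h3 p hp) p.2).mpr hp)
  · intro hfin
    by_contra hcon
    have hf : ∀ i, {t | A (i, t) = true}.Finite := fun i => by
      by_contra h
      exact hcon ⟨i, h⟩
    let q : ℕ → ℕ × Finset (ℕ × ℕ) := fun k =>
      (k, (Finset.range k).biUnion fun i => (hf i).toFinset.image fun t => (i, t))
    have hmem : ∀ k p, p ∈ (q k).2 ↔ p.1 < k ∧ A p = true := by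
      rintro k ⟨i, r⟩
      simp only [q, Finset.mem_biUnion, Finset.mem_range, Finset.mem_image, Set.Finite.mem_toFinset,
        mem_ofPred_eq, Prod.mk.injEq]
      constructor
      · rintro ⟨i', h1, t, h2, rfl, rfl⟩
        exact ⟨h1, h2⟩
      · rintro ⟨h1, h2⟩
        exact ⟨i, h1, r, h2, rfl, rfl⟩
    have hq : ∀ k, q k ∈ {q | (col A q).Infinite} := by
      intro k
      refine col_infinite.mpr ⟨fun p hp => ((hmem k p).mp hp).1, fun i hi r => ?_⟩
      rw [hmem]
      exact ⟨fun h => ⟨hi, h⟩, fun h => h.2⟩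
    exact (infinite_of_injective_forall_mem (f := q) (fun a b hab => congrArg Prod.fst hab) hq) hfin

theorem not_fsd_FF : ¬ IsFSigmaDelta (asSubset FF) := by
  classical
  rintro ⟨C, hC, hF⟩
  obtain ⟨e⟩ : Nonempty (ℕ ≃ ℕ × Finset (ℕ × ℕ)) := nonempty_equiv_of_countable
  -- the reduction
  let Φ : (ℕ × ℕ → Bool) → (ℕ → Bool) := fun A m =>
    !(decide ((Nat.unpair m).2 ∈ col A (e (Nat.log 2 (Nat.unpair m).1))))
  have hΦ : Continuous Φ := by
    refine continuous_pi fun m => ?_
    set q := e (Nat.log 2 (Nat.unpair m).1)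
    set t := (Nat.unpair m).2
    have h1 : Continuous fun A : ℕ × ℕ → Bool => decide (t ∈ col A q) := by
      rw [continuous_bool_rng true]
      have : (fun A : ℕ × ℕ → Bool => decide (t ∈ col A q)) ⁻¹' {true} =
          {A | ∀ p ∈ q.2, p.1 < q.1} ∩ ⋂ p ∈ (Finset.range q.1 ×ˢ Finset.range t),
            {A : ℕ × ℕ → Bool | A p = decide (p ∈ q.2)} := by
        ext A
        simp only [mem_preimage, mem_singleton_iff, decide_eq_true_iff, mem_inter_iff, mem_ofPred_eq,
          mem_iInter, Finset.mem_product, Finset.mem_range]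
        constructor
        · rintro ⟨h1, h2⟩
          refine ⟨h1, fun p hp => ?_⟩
          have := h2 p.1 hp.1 p.2 hp.2
          by_cases hAp : A p = true
          · rw [hAp, eq_comm, decide_eq_true_iff]
            exact this.mp hAp
          · have hAp' : A p = false := by simpa using hAp
            rw [hAp', eq_comm, decide_eq_false_iff_not]
            exact fun h => hAp (this.mpr h)
        · rintro ⟨h1, h2⟩
          refine ⟨h1, fun i hi r hr => ?_⟩
          rw [h2 (i, r) ⟨hi, hr⟩, decide_eq_true_iff]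
      rw [this]
      refine IsClopen.inter ?_ ?_
      · by_cases h : ∀ p ∈ q.2, p.1 < q.1
        · have : {A : ℕ × ℕ → Bool | ∀ p ∈ q.2, p.1 < q.1} = univ := by
            ext A
            simp only [mem_ofPred_eq, mem_univ, iff_true]
            exact h
          rw [this]
          exact isClopen_univ
        · have : {A : ℕ × ℕ → Bool | ∀ p ∈ q.2, p.1 < q.1} = ∅ := by
            ext A
            simp only [mem_ofPred_eq, mem_empty_iff_false, iff_false]
            exact h
          rw [this]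
          exact isClopen_empty
      · refine Set.Finite.isClopen_biInter (Finset.finite_toSet _) fun p _ => ?_
        exact (isClopen_discrete {decide (p ∈ q.2)}).preimage (continuous_apply p)
    exact (continuous_of_discreteTopology (f := fun b : Bool => !b)).comp h1
  have hcol : ∀ A n, sec {m | Φ A m = true}ᶜ n = col A (e (Nat.log 2 n)) := by
    intro A n
    ext t
    show ¬ (Φ A (Nat.pair n t) = true) ↔ _
    simp only [Φ, Nat.unpair_pair]
    simp
  have hpre : SS = Φ ⁻¹' (asSubset FF) := by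
    ext A
    rw [mem_SS_iff]
    show _ ↔ Zero {n | (sec {m | Φ A m = true}ᶜ n).Infinite}
    simp only [hcol]
    set J : Set ℕ := {j | (col A (e j)).Infinite}
    have hJ : {q | (col A q).Infinite}.Finite ↔ J.Finite := by
      have : J = e ⁻¹' {q | (col A q).Infinite} := rfl
      rw [this]
      constructor
      · intro h
        exact h.preimage e.injective.injOn
      · intro h
        have := h.image e
        rwa [image_preimage_eq _ e.surjective] at this
    rw [hJ]
    constructor
    · intro h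
      obtain ⟨M, hM⟩ := h.bddAbove
      refine zero_of_finite ((finite_Iio (2 ^ (M + 1))).subset fun n hn => ?_)
      have h1 : Nat.log 2 n ≤ M := hM hn
      exact Nat.lt_pow_of_log_lt one_lt_two (Nat.lt_succ_of_le h1)
    · intro hz
      by_contra hinf
      obtain ⟨N, hN⟩ := hz 3
      obtain ⟨j, hj, hjN⟩ := Set.Infinite.exists_gt hinf N
      have h1 := hN (2 ^ (j + 1)) (by
        have : j + 1 < 2 ^ (j + 1) := Nat.lt_two_pow_self
        omega)
      have h2 : 2 ^ j ≤ cnt {n | (col A (e (Nat.log 2 n))).Infinite} (2 ^ (j + 1)) := by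
        unfold cnt
        have h3 : (Finset.Ico (2 ^ j) (2 ^ (j + 1))).card = 2 ^ j := by
          rw [Nat.card_Ico, pow_succ]
          omega
        rw [← h3]
        refine Finset.card_le_card fun x hx => ?_
        rw [Finset.mem_Ico] at hx
        refine Finset.mem_filter.mpr ⟨Finset.mem_range.mpr hx.2, ?_⟩
        have h4 : Nat.log 2 x = j := Nat.log_eq_of_pow_le_of_lt_pow hx.1 hx.2
        show (col A (e (Nat.log 2 x))).Infinite
        rw [h4]
        exact hj
      have h5 : 0 < 2 ^ j := by positivity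
      rw [pow_succ] at h1
      rw [pow_succ] at h2
      omega
  apply not_fsd
  refine ⟨fun i j => Φ ⁻¹' (C i j), fun i j => (hC i j).preimage hΦ, ?_⟩
  rw [hpre, hF]
  ext A
  simp

/-- **Main theorem.** There is a free filter on `ω` which is Borel and not `F_σδ` and whose algebra
has the Nikodym property. -/
theorem result : ∃ F : Filter ℕ, F ≤ cofinite ∧ (∀ A : Set ℕ, A.Finite → A ∉ F) ∧
    MeasurableSet (asSubset F) ∧ ¬ IsFSigmaDelta (asSubset F) ∧ Nikodym (algebraOf F) :=
  ⟨FF, FF_le, fun _ h => FF_not_finite h, measurableSet_FF, not_fsd_FF, nikodym_FF⟩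

end Pool.Agent.Results.MP_07734d_lc.NikodymBorel
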